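import Mathlib
import Pool.Agent.Helper98.PointWalkDefs
import Pool.Agent.Helper98.PointWalkMain

open MeasureTheory ProbabilityTheory
open Pool.Agent.Helper98.PointWalk

namespace Pool.Agent.Results.MP_4a7829_pr.TransientPlanarExample

/-- **Answer to Q1 (yes).** There is a discrete point process on `ℤ²` on which the random walk
is almost surely transient. -/
theorem result : ∃ Q : Measure (Config 2), IsDiscretePointProcess Q ∧ AlmostSurelyTransient Q :=
  Pool.Agent.Helper98.PointWalk.main

end Pool.Agent.Results.MP_4a7829_pr.TransientPlanarExample
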